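import Mathlib
import Pool.Agent.W25.UB.Stm2
import Pool.Agent.W494.UB.FT3

/-! Project UB (helper25), task MAS: the master formula. -/

set_option autoImplicit false

namespace Pool.Agent.W89.UBMAS

open Finset Filter Topology
open Pool.Agent.W25.UN Pool.Agent.W25.UB
open Pool.Agent.H362R2.CM (IP prP)
open Pool.Agent.H410R2 (mulc lgt WW)
open Pool.Agent.W23.PL (DW Ev hat)
open Pool.Agent.H442R2.KF (Wt)

/-! ### growth -/

theorem T_tendsto : Tendsto (fun N : ℕ => ((2 * N : ℕ) : ℝ)) atTop atTop := by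
  refine tendsto_natCast_atTop_atTop.comp ?_
  exact tendsto_atTop_mono (fun n => by show n ≤ 2 * n; omega) tendsto_id

theorem grow (K : ℕ) (c C₀ : ℝ) (hc : 0 < c) : ∀ᶠ N : ℕ in atTop,
    C₀ * (Real.log ((2 * N : ℕ) : ℝ)) ^ K ≤ ((2 * N : ℕ) : ℝ) ^ c := by
  have hC : 0 < |C₀| + 1 := by positivity
  have h := (isLittleO_log_rpow_rpow_atTop (K : ℝ) hc).bound (c := 1 / (|C₀| + 1)) (by positivity)
  have h2 := T_tendsto.eventually h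
  filter_upwards [h2, T_tendsto.eventually_ge_atTop 1] with N h3 h1
  have hl : 0 ≤ Real.log ((2 * N : ℕ) : ℝ) := Real.log_nonneg h1
  rw [Real.rpow_natCast, Real.norm_of_nonneg (pow_nonneg hl _),
    Real.norm_of_nonneg (Real.rpow_nonneg (by linarith) _)] at h3
  calc C₀ * (Real.log ((2 * N : ℕ) : ℝ)) ^ K
      ≤ (|C₀| + 1) * (Real.log ((2 * N : ℕ) : ℝ)) ^ K := by
        refine mul_le_mul_of_nonneg_right ?_ (pow_nonneg hl _)
        linarith [le_abs_self C₀]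
    _ ≤ (|C₀| + 1) * (1 / (|C₀| + 1) * ((2 * N : ℕ) : ℝ) ^ c) :=
        mul_le_mul_of_nonneg_left h3 hC.le
    _ = _ := by field_simp

/-! ### the small modulus -/

theorem ww_half (D : ℕ) (hD : 2 ≤ D) :
    WW D / 2 = ∏ p ∈ ((Icc 1 D).filter Nat.Prime).erase 2, p := by
  have h2 : 2 ∈ (Icc 1 D).filter Nat.Prime := by
    rw [Finset.mem_filter, Finset.mem_Icc]
    exact ⟨⟨by norm_num, hD⟩, Nat.prime_two⟩
  have h := Finset.mul_prod_erase ((Icc 1 D).filter Nat.Prime) (fun p => p) h2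
  unfold WW
  rw [← h]
  exact Nat.mul_div_cancel_left _ (by norm_num)

theorem sqf_prod (T : Finset ℕ) (hT : ∀ p ∈ T, p.Prime) : Squarefree (∏ p ∈ T, p) := by
  classical
  induction T using Finset.induction_on with
  | empty => simp
  | insert q T hq ih =>
    rw [Finset.prod_insert hq]
    have hqp := hT q (Finset.mem_insert_self q T)
    have hT' : ∀ p ∈ T, p.Prime := fun p hp => hT p (Finset.mem_insert_of_mem hp)
    have hc : Nat.Coprime q (∏ p ∈ T, p) := by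
      refine Nat.Coprime.prod_right fun p hp => ?_
      refine (Nat.coprime_primes hqp (hT' p hp)).2 ?_
      rintro rfl
      exact hq hp
    exact (Nat.squarefree_mul hc).2 ⟨hqp.prime.squarefree, ih hT'⟩

theorem dvd_prod_mem (T : Finset ℕ) (hT : ∀ p ∈ T, p.Prime) (q : ℕ) (hq : q.Prime)
    (h : q ∣ ∏ p ∈ T, p) : q ∈ T := by
  obtain ⟨p, hp, hqp⟩ := (Prime.dvd_finsetProd_iff hq.prime _).1 h
  have := (Nat.prime_dvd_prime_iff_eq hq (hT p hp)).1 hqp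
  rw [this]
  exact hp

theorem ww_facts (D : ℕ) (hD : 2 ≤ D) : 1 ≤ WW D / 2 ∧ Odd (WW D / 2) ∧ Squarefree (WW D / 2) ∧
    ∀ p : ℕ, p.Prime → p ∣ WW D / 2 → p ≤ D := by
  rw [ww_half D hD]
  have hT : ∀ p ∈ ((Icc 1 D).filter Nat.Prime).erase 2, p.Prime := fun p hp =>
    (Finset.mem_filter.1 (Finset.mem_of_mem_erase hp)).2
  refine ⟨?_, ?_, sqf_prod _ hT, ?_⟩
  · exact Finset.prod_pos fun p hp => (hT p hp).pos
  · rw [← Nat.not_even_iff_odd, even_iff_two_dvd]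
    intro h
    have := dvd_prod_mem _ hT 2 Nat.prime_two h
    exact absurd rfl (Finset.ne_of_mem_erase this)
  · intro p hp h
    have := dvd_prod_mem _ hT p hp h
    exact (Finset.mem_Icc.1 (Finset.mem_filter.1 (Finset.mem_of_mem_erase this)).1).2

/-! ### simple bounds -/

theorem ex_bd {S : ℕ → Prop} {Y R : ℝ} {Φ : ℤ → ℝ} {m : ℝ} (h : Ex S Y R Φ m) (n : ℤ) :
    |Φ n| ≤ Y := by
  obtain ⟨s, φ, h1, h2, -, -⟩ := h
  rw [h1 n]
  refine (Finset.abs_sum_le_sum_abs _ _).trans (le_trans (Finset.sum_le_sum fun x _ => ?_) h2)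
  rw [abs_mul]
  have : |(if (x.1 : ℤ) ∣ n - x.2 then (1 : ℝ) else 0)| ≤ 1 := by
    split_ifs <;> simp
  calc |φ x| * _ ≤ |φ x| * 1 := mul_le_mul_of_nonneg_left this (abs_nonneg _)
    _ = _ := mul_one _

theorem ds_bd (c : ℕ → ℝ) (Z : ℕ) (n : ℤ) : |ds c Z n| ≤ ∑ d ∈ Icc 1 Z, |c d| := by
  unfold ds
  refine (Finset.abs_sum_le_sum_abs _ _).trans (Finset.sum_le_sum fun x _ => ?_)
  rw [abs_mul]
  have : |(if (x : ℤ) ∣ n then (1 : ℝ) else 0)| ≤ 1 := by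
    split_ifs <;> simp
  calc |c x| * _ ≤ |c x| * 1 := mul_le_mul_of_nonneg_left this (abs_nonneg _)
    _ = _ := mul_one _

theorem sum_bd (c : ℕ → ℝ) (M : ℝ) (Z N : ℕ) (hM : 0 ≤ M) (hc : ∀ d, |c d| ≤ M) (hZ : Z ≤ N) :
    |∑ d ∈ Icc 1 Z, c d / d| ≤ M * (1 + Real.log N) := by
  refine (Finset.abs_sum_le_sum_abs _ _).trans ?_
  calc ∑ d ∈ Icc 1 Z, |c d / d| ≤ ∑ d ∈ Icc 1 Z, M * (1 / (d : ℝ)) := by
        refine Finset.sum_le_sum fun d _ => ?_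
        rw [abs_div, Nat.abs_cast, div_eq_mul_one_div]
        exact mul_le_mul_of_nonneg_right (hc d) (by positivity)
    _ = M * ∑ d ∈ Icc 1 Z, 1 / (d : ℝ) := by rw [Finset.mul_sum]
    _ ≤ _ := mul_le_mul_of_nonneg_left (Pool.Agent.W494.UB.FT3.hsum Z N hZ) hM

/-! ### the forms -/

section
variable {k : ℕ}

theorem lf_dvd (α h : Fin k → ℤ) (N : ℕ) (j : Fin k) (hα : α j = 1 ∨ α j = -1) (n : ℤ) (d : ℤ) :
    d ∣ Lf α h N (some j) n ↔ d ∣ n - (-(α j * (N + h j))) := by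
  show d ∣ α j * n + (N + h j) ↔ _
  rcases hα with h1 | h1
  · rw [h1]
    have : (1 : ℤ) * n + (N + h j) = n - (-(1 * (N + h j))) := by ring
    rw [this]
  · rw [h1]
    have : (-1 : ℤ) * n + (N + h j) = -(n - (-(-1 * (N + h j)))) := by ring
    rw [this, dvd_neg]

theorem ds_lf (α h : Fin k → ℤ) (N : ℕ) (j : Fin k) (hα : α j = 1 ∨ α j = -1) (n : ℤ)
    (b : ℕ → ℝ) (Z : ℕ) :
    ds b Z (Lf α h N (some j) n) = ds b Z (n - (-(α j * (N + h j)))) := by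
  unfold ds
  refine Finset.sum_congr rfl fun d _ => ?_
  simp only [lf_dvd α h N j hα n d]

theorem cross (α h : Fin k → ℤ) (N : ℕ) (j j' : Fin k) (hα : α j = 1 ∨ α j = -1)
    (hα' : α j' = 1 ∨ α j' = -1) :
    (-(α j * (N + h j)) - (-(α j' * (N + h j')))) * (α j * α j') =
      uB α (some j) * wB h N (some j') - uB α (some j') * wB h N (some j) := by
  show _ = α j * (N + h j') - α j' * (N + h j)
  rcases hα with h1 | h1 <;> rcases hα' with h2 | h2 <;> rw [h1, h2] <;> ring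

theorem mem_CL (u w : Option (Fin k) → ℤ) (hne : ∀ j l, j ≠ l → u j * w l - u l * w j ≠ 0)
    (p : ℕ) (hp : p.Prime) (j l : Option (Fin k)) (hjl : j ≠ l)
    (hd : (p : ℤ) ∣ u j * w l - u l * w j) : p ∈ CL u w := by
  unfold CL
  rw [Nat.mem_primeFactors]
  refine ⟨hp, ?_, ?_⟩
  · rw [← Int.natCast_dvd]
    refine dvd_trans ?_ (Finset.dvd_prod_of_mem _ (Finset.mem_univ j))
    refine dvd_trans ?_ (Finset.dvd_prod_of_mem _ (Finset.mem_univ l))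
    rw [if_neg hjl]
    exact hd
  · rw [Int.natAbs_ne_zero, Finset.prod_ne_zero_iff]
    intro a _
    rw [Finset.prod_ne_zero_iff]
    intro b _
    split_ifs with hab
    · exact one_ne_zero
    · exact hne a b hab

end

/-! ### numerics -/

theorem pw (N D₁ : ℕ) (η₀ r : ℝ) (hN : 1 ≤ N) (hη₀ : 0 < η₀) (hr : 0 < r)
    (hD₁ : (D₁ : ℝ) ≤ ((2 * N : ℕ) : ℝ) ^ η₀) :
    (N : ℝ) ^ η₀ * (Real.exp (2 * (r * Real.log N)) * (D₁ : ℝ) ^ 2) ≤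
      ((2 * N : ℕ) : ℝ) ^ (3 * η₀ + 2 * r) := by
  have hN0 : (0 : ℝ) < N := by exact_mod_cast hN
  have hNT : (N : ℝ) ≤ ((2 * N : ℕ) : ℝ) := by push_cast; linarith
  have hT : (0 : ℝ) < ((2 * N : ℕ) : ℝ) := by linarith
  have h1 : (N : ℝ) ^ η₀ ≤ ((2 * N : ℕ) : ℝ) ^ η₀ := Real.rpow_le_rpow hN0.le hNT hη₀.le
  have h2 : Real.exp (2 * (r * Real.log N)) ≤ ((2 * N : ℕ) : ℝ) ^ (2 * r) := by
    have : Real.exp (2 * (r * Real.log N)) = (N : ℝ) ^ (2 * r) := by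
      rw [Real.rpow_def_of_pos hN0]
      ring_nf
    rw [this]
    exact Real.rpow_le_rpow hN0.le hNT (by positivity)
  have h3 : (D₁ : ℝ) ^ 2 ≤ ((2 * N : ℕ) : ℝ) ^ (η₀ * 2) := by
    rw [Real.rpow_mul hT.le, Real.rpow_two]
    exact pow_le_pow_left₀ (Nat.cast_nonneg _) hD₁ 2
  have h0 : (0 : ℝ) ≤ ((2 * N : ℕ) : ℝ) ^ (2 * r) := Real.rpow_nonneg hT.le _
  calc (N : ℝ) ^ η₀ * (Real.exp (2 * (r * Real.log N)) * (D₁ : ℝ) ^ 2)
      ≤ ((2 * N : ℕ) : ℝ) ^ η₀ * (((2 * N : ℕ) : ℝ) ^ (2 * r) * ((2 * N : ℕ) : ℝ) ^ (η₀ * 2)) := by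
        refine mul_le_mul h1 (mul_le_mul h2 h3 (sq_nonneg _) h0) (by positivity)
          (Real.rpow_nonneg hT.le _)
    _ = _ := by
        rw [← Real.rpow_add hT, ← Real.rpow_add hT]
        ring_nf

theorem mterm (l : ℝ) (E₁ E₃ m₁ : ℕ) (g H H' Q m3 t W e : ℝ) (hl : 10 ≤ l)
    (hg' : g ≤ l ^ (2 * E₁)) (hH : |H| ≤ l * (1 + l)) (hH' : |H'| ≤ l * (1 + l))
    (hQ : |Q| ≤ g * l ^ m₁) (hm : |m3 - H * H' * Q| ≤ g * l ^ E₃ / e) (he : 1 ≤ e)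
    (ht : |t| ≤ 2) (hW : 1 ≤ W) : |1 / W * t * m3| ≤ l ^ (2 * E₁ + m₁ + E₃ + 5) := by
  have hl0 : 0 < l := by linarith
  have hl1 : 1 ≤ l := by linarith
  have h1 : |H * H' * Q| ≤ (2 * l ^ 2) * (2 * l ^ 2) * (l ^ (2 * E₁) * l ^ m₁) := by
    rw [abs_mul, abs_mul]
    have h2 : l * (1 + l) ≤ 2 * l ^ 2 := by nlinarith
    refine mul_le_mul (mul_le_mul (hH.trans h2) (hH'.trans h2) (abs_nonneg _) (by positivity)) ?_
      (abs_nonneg _) (by positivity)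
    exact hQ.trans (mul_le_mul_of_nonneg_right hg' (by positivity))
  have h2 : g * l ^ E₃ / e ≤ l ^ (2 * E₁) * l ^ E₃ := by
    rw [div_le_iff₀ (by linarith)]
    have h3 : g * l ^ E₃ ≤ l ^ (2 * E₁) * l ^ E₃ := mul_le_mul_of_nonneg_right hg' (by positivity)
    have h4 : 0 ≤ l ^ (2 * E₁) * l ^ E₃ := by positivity
    nlinarith
  have h3 : |m3| ≤ (2 * l ^ 2) * (2 * l ^ 2) * (l ^ (2 * E₁) * l ^ m₁) +
      l ^ (2 * E₁) * l ^ E₃ := by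
    have := abs_sub_abs_le_abs_sub m3 (H * H' * Q)
    linarith
  have h4 : (2 * l ^ 2) * (2 * l ^ 2) * (l ^ (2 * E₁) * l ^ m₁) ≤
      4 * l ^ (2 * E₁ + m₁ + E₃ + 4) := by
    have : l ^ (2 * E₁ + m₁ + E₃ + 4) = l ^ 2 * l ^ 2 * (l ^ (2 * E₁) * l ^ m₁) * l ^ E₃ := by ring
    rw [this]
    have h5 : 1 ≤ l ^ E₃ := one_le_pow₀ hl1
    have h6 : 0 ≤ l ^ 2 * l ^ 2 * (l ^ (2 * E₁) * l ^ m₁) := by positivity
    nlinarith
  have h5 : l ^ (2 * E₁) * l ^ E₃ ≤ l ^ (2 * E₁ + m₁ + E₃ + 4) := by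
    rw [← pow_add]
    exact pow_le_pow_right₀ hl1 (by omega)
  have h6 : |1 / W * t| ≤ 2 := by
    rw [abs_mul, abs_of_nonneg (by positivity : (0 : ℝ) ≤ 1 / W)]
    have : 1 / W ≤ 1 := by
      rw [div_le_one (by linarith)]
      exact hW
    have h0 : 0 ≤ 1 / W := by positivity
    nlinarith [abs_nonneg t]
  rw [abs_mul]
  calc |1 / W * t| * |m3| ≤ 2 * (5 * l ^ (2 * E₁ + m₁ + E₃ + 4)) :=
        mul_le_mul h6 (by linarith) (abs_nonneg _) (by norm_num)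
    _ = 10 * l ^ (2 * E₁ + m₁ + E₃ + 4) := by ring
    _ ≤ l * l ^ (2 * E₁ + m₁ + E₃ + 4) := mul_le_mul_of_nonneg_right hl (by positivity)
    _ = _ := by ring

theorem diff_bd (l M X W t m3 HQ S S' e g : ℝ) (A B E₁ E₃ : ℕ) (hl : 2 ≤ l)
    (hlM : 16 * M ^ 2 ≤ l) (hM : 1 ≤ M) (hX : 0 ≤ X) (hW : 1 ≤ W) (ht : |t| ≤ 2)
    (hg' : g ≤ l ^ (2 * E₁)) (hm : |m3 - HQ| ≤ g * l ^ E₃ / e) (he : l ^ B ≤ e)
    (hB : E₃ + 3 + 2 * E₁ + A ≤ B) (hS : |S| ≤ M * (2 * l)) (hS' : |S'| ≤ M * (2 * l)) :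
    |X * ((1 / W * t * m3) * (S * S')) - X * (t / W * HQ * (S * S'))| ≤ X / (2 * l ^ A) := by
  have hl0 : 0 < l := by linarith
  have hl1 : 1 ≤ l := by linarith
  have h1 : X * ((1 / W * t * m3) * (S * S')) - X * (t / W * HQ * (S * S')) =
      X * ((t / W) * (m3 - HQ) * (S * S')) := by
    field_simp
  have h2 : |t / W| ≤ 2 := by
    rw [abs_div, abs_of_pos (by linarith : 0 < W), div_le_iff₀ (by linarith)]
    nlinarith [abs_nonneg t]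
  have h3 : g * l ^ E₃ / e ≤ l ^ (2 * E₁) * l ^ E₃ / l ^ B := by
    refine div_le_div₀ (by positivity) ?_ (by positivity) he
    exact mul_le_mul_of_nonneg_right hg' (by positivity)
  rw [h1, abs_mul, abs_of_nonneg hX, abs_mul, abs_mul, abs_mul]
  have h4 : |S| * |S'| ≤ (M * (2 * l)) * (M * (2 * l)) :=
    mul_le_mul hS hS' (abs_nonneg _) (by positivity)
  have h5 : |t / W| * |m3 - HQ| * (|S| * |S'|) ≤
      2 * (l ^ (2 * E₁) * l ^ E₃ / l ^ B) * ((M * (2 * l)) * (M * (2 * l))) :=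
    mul_le_mul (mul_le_mul h2 (hm.trans h3) (abs_nonneg _) (by norm_num)) h4
      (mul_nonneg (abs_nonneg _) (abs_nonneg _)) (by positivity)
  have h6 : 2 * (l ^ (2 * E₁) * l ^ E₃ / l ^ B) * ((M * (2 * l)) * (M * (2 * l))) ≤
      1 / (2 * l ^ A) := by
    have h7 : 2 * (l ^ (2 * E₁) * l ^ E₃ / l ^ B) * ((M * (2 * l)) * (M * (2 * l))) =
        8 * M ^ 2 * l ^ (2 * E₁ + E₃ + 2) / l ^ B := by
      rw [pow_add, pow_add]
      ring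
    rw [h7, div_le_div_iff₀ (by positivity) (by positivity)]
    calc 8 * M ^ 2 * l ^ (2 * E₁ + E₃ + 2) * (2 * l ^ A)
        = (16 * M ^ 2) * l ^ (2 * E₁ + E₃ + 2 + A) := by ring
      _ ≤ l * l ^ (2 * E₁ + E₃ + 2 + A) := mul_le_mul_of_nonneg_right hlM (by positivity)
      _ = l ^ (E₃ + 3 + 2 * E₁ + A) := by ring
      _ ≤ l ^ B := pow_le_pow_right₀ hl1 hB
      _ = _ := by ring
  calc X * (|t / W| * |m3 - HQ| * (|S| * |S'|)) ≤ X * (1 / (2 * l ^ A)) :=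
        mul_le_mul_of_nonneg_left (h5.trans h6) hX
    _ = _ := by ring

theorem err_bd (X l M C η₁ : ℝ) (A E₅ : ℕ) (hX : 0 < X) (hl : 0 < l)
    (h : 2 * M ^ 2 * C * l ^ (A + E₅) ≤ X ^ η₁) :
    l ^ E₅ * M ^ 2 * (C * X ^ (1 - η₁)) ≤ X / (2 * l ^ A) := by
  have h1 : X ^ (1 - η₁) = X / X ^ η₁ := by
    rw [Real.rpow_sub hX, Real.rpow_one]
  have h2 : 0 < X ^ η₁ := Real.rpow_pos_of_pos hX _
  rw [h1]
  have h3 : l ^ E₅ * M ^ 2 * (C * (X / X ^ η₁)) = (l ^ E₅ * M ^ 2 * C * X) / X ^ η₁ := by ring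
  rw [h3, div_le_div_iff₀ h2 (by positivity)]
  calc l ^ E₅ * M ^ 2 * C * X * (2 * l ^ A) = X * (2 * M ^ 2 * C * l ^ (A + E₅)) := by
        rw [pow_add]
        ring
    _ ≤ X * X ^ η₁ := mul_le_mul_of_nonneg_left h hX.le

theorem ds_div (b : ℕ → ℝ) (M : ℝ) (Z : ℕ) (n : ℤ) :
    ds (fun d => b d / M) Z n = ds b Z n / M := by
  unfold ds
  rw [Finset.sum_div]
  exact Finset.sum_congr rfl fun d _ => by ring

theorem hat_div (b : ℕ → ℝ) (M : ℝ) (Z : ℕ) :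
    ∑ d ∈ Icc 1 Z, b d / M / (d : ℝ) = (∑ d ∈ Icc 1 Z, b d / (d : ℝ)) / M := by
  rw [Finset.sum_div]
  exact Finset.sum_congr rfl fun d _ => by ring

theorem main (hEXM : St_EXM) (hGAU : St_GAU) (hFT3 : St_FT3)
    (hCC : Pool.Agent.W25.UN.CLcard) : St_MAS := by
  intro ε₀ η hε₀ hε₀' hη hη' hR2 k
  obtain ⟨E₃, N₃, hFT⟩ := hFT3 k
  obtain ⟨m₁, hm₁⟩ := Pool.Agent.W494.UB.FT3.prods (18 * ((k : ℝ) + 2) ^ 2) (by positivity)
  refine ⟨E₃ + 3, ?_⟩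
  intro ε₁ η₀ r M A E₁ B D α h hε₁ hε₁' hη₀ hr hr1 hr2 hη1 hη2 hM hB hD hα hαh
  obtain ⟨η₁, C, hη₁, hC, hR⟩ := hR2 (ε₁ / 2) (by linarith) (by linarith)
  obtain ⟨X₀, hX₀⟩ := hGAU (1 / 2) (by norm_num)
  obtain ⟨C', hCC'⟩ := hCC k α h
    (fun i => by rcases hα i with h1 | h1 <;> rw [h1] <;> norm_num) hαh
  have hT2 : Tendsto (fun N : ℕ => 2 * N) atTop atTop :=
    tendsto_atTop_mono (fun n => by show n ≤ 2 * n; omega) tendsto_id
  filter_upwards [hCC', hT2.eventually hm₁, Pool.Agent.W494.UB.FT3.tlog 10,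
    Pool.Agent.W494.UB.FT3.tlog (16 * M ^ 2), Pool.Agent.W494.UB.FT3.tlog (D + 1),
    grow 0 (ε₀ / 20) ((WW D / 2 : ℕ) : ℝ) (by positivity),
    grow (2 * E₁ + E₃) (η / 2) 1 (by positivity),
    grow (A + (2 * E₁ + m₁ + E₃ + 5)) η₁ (2 * M ^ 2 * C) hη₁, grow B ε₁ 1 hε₁,
    eventually_ge_atTop N₃, eventually_ge_atTop X₀, eventually_ge_atTop 16,
    eventually_ge_atTop (2 * ∑ i, (h i).natAbs)]
    with N hcc hprod hl10 hlM hlD hgW hgY hgE hgB hN3 hNX hN16 hNh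
  intro v D₁ P Pt Tr t hD₁ hP hTr ht X Z c j j' th th' b b' hX hZ hjj' hc hcR hth hth' halt halt'
    hb hb'
  obtain ⟨hW1, hWo, hWs, hWp⟩ := ww_facts D (by omega)
  have hN0 : (16 : ℝ) ≤ N := by exact_mod_cast hN16
  have hTN : ((2 * N : ℕ) : ℝ) = 2 * N := by push_cast; ring
  have hT1 : (1 : ℝ) ≤ ((2 * N : ℕ) : ℝ) := by rw [hTN]; linarith
  have hT0 : (0 : ℝ) < ((2 * N : ℕ) : ℝ) := by linarith
  have hl : Real.log N ≤ Real.log ((2 * N : ℕ) : ℝ) :=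
    Real.log_le_log (by linarith) (by rw [hTN]; linarith)
  have hl2 : 10 ≤ Real.log ((2 * N : ℕ) : ℝ) := hl10.trans hl
  have hl1 : 1 ≤ Real.log ((2 * N : ℕ) : ℝ) := by linarith
  have hl0 : 0 < Real.log ((2 * N : ℕ) : ℝ) := by linarith
  -- the end of the presieve
  have hDB1 : (Real.log ((2 * N : ℕ) : ℝ)) ^ B ≤ (DB (2 * N) B : ℝ) + 1 := by
    have h1 : (Real.log ((2 * N : ℕ) : ℝ)) ^ B ≤ (⌈(Real.log ((2 * N : ℕ) : ℝ)) ^ B⌉₊ : ℝ) :=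
      Nat.le_ceil _
    have h2 : ⌈(Real.log ((2 * N : ℕ) : ℝ)) ^ B⌉₊ ≤ DB (2 * N) B + 1 := by
      unfold DB
      omega
    have h3 : (⌈(Real.log ((2 * N : ℕ) : ℝ)) ^ B⌉₊ : ℝ) ≤ (DB (2 * N) B : ℝ) + 1 := by
      exact_mod_cast h2
    linarith
  have hlB : Real.log ((2 * N : ℕ) : ℝ) ≤ (Real.log ((2 * N : ℕ) : ℝ)) ^ B :=
    le_self_pow₀ hl1 (by omega)
  have hDB2 : (DB (2 * N) B : ℝ) ≤ (Real.log ((2 * N : ℕ) : ℝ)) ^ B := by
    have h1 : (⌈(Real.log ((2 * N : ℕ) : ℝ)) ^ B⌉₊ : ℝ) < (Real.log ((2 * N : ℕ) : ℝ)) ^ B + 1 :=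
      Nat.ceil_lt_add_one (by positivity)
    have h2 : DB (2 * N) B + 1 = ⌈(Real.log ((2 * N : ℕ) : ℝ)) ^ B⌉₊ := by
      have h3 : 0 < ⌈(Real.log ((2 * N : ℕ) : ℝ)) ^ B⌉₊ := Nat.ceil_pos.2 (by positivity)
      unfold DB
      omega
    have h4 : ((DB (2 * N) B : ℕ) : ℝ) + 1 = (⌈(Real.log ((2 * N : ℕ) : ℝ)) ^ B⌉₊ : ℝ) := by
      exact_mod_cast h2
    linarith
  have hDDB : D ≤ DB (2 * N) B := by
    have h1 : ((D + 1 : ℕ) : ℝ) ≤ (⌈(Real.log ((2 * N : ℕ) : ℝ)) ^ B⌉₊ : ℝ) := by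
      rw [Nat.cast_add, Nat.cast_one]
      exact (hlD.trans (hl.trans hlB)).trans (Nat.le_ceil _)
    have h2 : D + 1 ≤ ⌈(Real.log ((2 * N : ℕ) : ℝ)) ^ B⌉₊ := by exact_mod_cast h1
    unfold DB
    omega
  -- the primes
  have hpN : ∀ p ∈ P ∪ Pt, p ≤ 2 * N := by
    intro p hp
    have h1 := (hP p hp).2.2
    have h2 : ((2 * N : ℕ) : ℝ) ^ ε₁ ≤ ((2 * N : ℕ) : ℝ) := by
      calc ((2 * N : ℕ) : ℝ) ^ ε₁ ≤ ((2 * N : ℕ) : ℝ) ^ (1 : ℝ) :=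
            Real.rpow_le_rpow_of_exponent_le hT1 hε₁'
        _ = _ := Real.rpow_one _
    exact_mod_cast h1.trans h2
  have hD₁' : (D₁ : ℝ) ≤ ((2 * N : ℕ) : ℝ) ^ η₀ := by
    rw [hD₁]
    exact Nat.floor_le (Real.rpow_nonneg hT0.le _)
  have hD₁N : D₁ ≤ 2 * N := by
    have h2 : ((2 * N : ℕ) : ℝ) ^ η₀ ≤ ((2 * N : ℕ) : ℝ) := by
      calc ((2 * N : ℕ) : ℝ) ^ η₀ ≤ ((2 * N : ℕ) : ℝ) ^ (1 : ℝ) :=
            Real.rpow_le_rpow_of_exponent_le hT1 (by linarith)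
        _ = _ := Real.rpow_one _
    exact_mod_cast hD₁'.trans h2
  -- the expandable part
  obtain ⟨m3, hEx3, hm3⟩ := hFT (2 * N) (by omega) (uB α) (wB h N) P Pt c (some j) (some j')
    (r * Real.log N) ((Real.log N) ^ E₁) ((DB (2 * N) B : ℝ) + 1) D₁ th th'
    (by simpa using hjj') (by linarith)
    (fun p hp => ⟨(hP p hp).1, by exact_mod_cast (hP p hp).2.1, by exact_mod_cast hpN p hp⟩)
    (one_le_pow₀ (by linarith)) hD₁N hc hcR hth hth' halt halt'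
  have hExW := hEXM.2.2.2.1 (fun p => p ≤ D) (WW D / 2) (v : ℤ) hW1 hWo hWs hWp
  have hEx1 := hEXM.1 _ _ _ _ _ _ _ _ _ _ hExW hTr (fun p h1 h2 => absurd h1 (by omega))
    (Nat.cast_nonneg _) (Real.rpow_nonneg (by linarith) _)
  have hEx2 := hEXM.1 _ _ _ _ _ _ _ _ _ _ hEx1 hEx3
    (fun p h1 h2 => by
      have h3 := (hP p h2).2.1
      rcases h1 with h1 | h1 <;> omega)
    (by positivity) (by positivity)
  -- sizes of the parts
  have hg' : ((Real.log N) ^ E₁) ^ 2 ≤ (Real.log ((2 * N : ℕ) : ℝ)) ^ (2 * E₁) := by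
    rw [← pow_mul, mul_comm E₁ 2]
    exact pow_le_pow_left₀ (by linarith) hl _
  have hH : |hat th D₁| ≤ Real.log ((2 * N : ℕ) : ℝ) * (1 + Real.log ((2 * N : ℕ) : ℝ)) :=
    sum_bd th _ D₁ (2 * N) hl0.le hth.bd hD₁N
  have hH' : |hat th' D₁| ≤ Real.log ((2 * N : ℕ) : ℝ) * (1 + Real.log ((2 * N : ℕ) : ℝ)) :=
    sum_bd th' _ D₁ (2 * N) hl0.le hth'.bd hD₁N
  have hPp : ∀ p ∈ P, p.Prime := fun p hp => (hP p (Finset.mem_union_left _ hp)).1.1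
  have hQ : |Q1f (prP P) c| ≤ ((Real.log N) ^ E₁) ^ 2 * (Real.log ((2 * N : ℕ) : ℝ)) ^ m₁ := by
    refine (Pool.Agent.W494.UB.FT3.q1f_le P c ((Real.log N) ^ E₁) hPp
      (pow_nonneg (by linarith) _) hc).trans ?_
    refine mul_le_mul_of_nonneg_left ?_ (sq_nonneg _)
    exact (Pool.Agent.W494.UB.FT3.prod9_le k P hPp).trans
      (hprod P fun p hp => ⟨hPp p hp, hpN p (Finset.mem_union_left _ hp)⟩)
  have hW1R : (1 : ℝ) ≤ ((WW D / 2 : ℕ) : ℝ) := by exact_mod_cast hW1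
  have hm0 : |1 / ((WW D / 2 : ℕ) : ℝ) * t * m3| ≤
      (Real.log ((2 * N : ℕ) : ℝ)) ^ (2 * E₁ + m₁ + E₃ + 5) :=
    mterm _ E₁ E₃ m₁ (((Real.log N) ^ E₁) ^ 2) (hat th D₁) (hat th' D₁) (Q1f (prP P) c) m3 t _
      ((DB (2 * N) B : ℝ) + 1) hl2 hg' hH hH' hQ hm3 (by linarith) ht hW1R
  have hpw := pw N D₁ η₀ r (by omega) hη₀ hr hD₁'
  -- the two values of `X`
  have hX1 : ((2 * N : ℕ) : ℝ) ≤ (X : ℝ) := by
    rcases hX with rfl | rfl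
    · exact le_rfl
    · push_cast; linarith
  have hX2 : (X : ℝ) ≤ ((2 * N : ℕ) : ℝ) ^ (2 : ℝ) := by
    rw [Real.rpow_two, hTN]
    rcases hX with rfl | rfl
    · push_cast; nlinarith
    · push_cast; nlinarith
  have hX3 : (X : ℝ) ≤ 2 * ((2 * N : ℕ) : ℝ) := by
    rw [hTN]
    rcases hX with rfl | rfl
    · push_cast; linarith
    · push_cast; linarith
  have hX0 : (0 : ℝ) < X := by linarith
  have hX1' : (1 : ℝ) ≤ X := by linarith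
  have hy : (X : ℝ) ^ (ε₁ / 2) ≤ ((2 * N : ℕ) : ℝ) ^ ε₁ := by
    calc (X : ℝ) ^ (ε₁ / 2) ≤ (((2 * N : ℕ) : ℝ) ^ (2 : ℝ)) ^ (ε₁ / 2) :=
          Real.rpow_le_rpow hX0.le hX2 (by linarith)
      _ = _ := by
          rw [← Real.rpow_mul hT0.le]
          ring_nf
  have hR0 : ((WW D / 2 : ℕ) : ℝ) * (N : ℝ) ^ η₀ * (Real.exp (2 * (r * Real.log N)) *
      (D₁ : ℝ) ^ 2) ≤ (X : ℝ) ^ (ε₀ / 10) := by
    rw [pow_zero, mul_one] at hgW
    calc ((WW D / 2 : ℕ) : ℝ) * (N : ℝ) ^ η₀ * (Real.exp (2 * (r * Real.log N)) * (D₁ : ℝ) ^ 2)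
        = ((WW D / 2 : ℕ) : ℝ) *
          ((N : ℝ) ^ η₀ * (Real.exp (2 * (r * Real.log N)) * (D₁ : ℝ) ^ 2)) := by ring
      _ ≤ ((2 * N : ℕ) : ℝ) ^ (ε₀ / 20) * ((2 * N : ℕ) : ℝ) ^ (3 * η₀ + 2 * r) :=
          mul_le_mul hgW hpw (by positivity) (Real.rpow_nonneg hT0.le _)
      _ = ((2 * N : ℕ) : ℝ) ^ (ε₀ / 20 + (3 * η₀ + 2 * r)) := (Real.rpow_add hT0 _ _).symm
      _ ≤ ((2 * N : ℕ) : ℝ) ^ (ε₀ / 10) :=
          Real.rpow_le_rpow_of_exponent_le hT1 (by linarith)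
      _ ≤ _ := Real.rpow_le_rpow hT0.le hX1 (by linarith)
  have ha0 : 0 < 1 / (Real.log ((2 * N : ℕ) : ℝ)) ^ (2 * E₁ + m₁ + E₃ + 5) := by positivity
  have ha1 : 1 / (Real.log ((2 * N : ℕ) : ℝ)) ^ (2 * E₁ + m₁ + E₃ + 5) ≤ 1 := by
    rw [div_le_one (by positivity)]
    exact one_le_pow₀ hl1
  have hY0 : |1 / (Real.log ((2 * N : ℕ) : ℝ)) ^ (2 * E₁ + m₁ + E₃ + 5)| *
      (1 * (N : ℝ) ^ η₀ * ((Real.log (N : ℝ) ^ E₁) ^ 2 * Real.exp (2 * (r * Real.log N)) *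
        (D₁ : ℝ) ^ 2 * (Real.log ((2 * N : ℕ) : ℝ)) ^ E₃)) ≤ (X : ℝ) ^ η := by
    rw [abs_of_pos ha0]
    rw [one_mul] at hgY
    have h0 : 0 ≤ 1 * (N : ℝ) ^ η₀ * ((Real.log (N : ℝ) ^ E₁) ^ 2 *
        Real.exp (2 * (r * Real.log N)) *
        (D₁ : ℝ) ^ 2 * (Real.log ((2 * N : ℕ) : ℝ)) ^ E₃) := by positivity
    calc 1 / (Real.log ((2 * N : ℕ) : ℝ)) ^ (2 * E₁ + m₁ + E₃ + 5) *
      (1 * (N : ℝ) ^ η₀ * ((Real.log (N : ℝ) ^ E₁) ^ 2 * Real.exp (2 * (r * Real.log N)) *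
        (D₁ : ℝ) ^ 2 * (Real.log ((2 * N : ℕ) : ℝ)) ^ E₃))
        ≤ 1 * (1 * (N : ℝ) ^ η₀ * ((Real.log (N : ℝ) ^ E₁) ^ 2 *
          Real.exp (2 * (r * Real.log N)) *
          (D₁ : ℝ) ^ 2 * (Real.log ((2 * N : ℕ) : ℝ)) ^ E₃)) :=
          mul_le_mul_of_nonneg_right ha1 h0
      _ = ((Real.log (N : ℝ) ^ E₁) ^ 2 * (Real.log ((2 * N : ℕ) : ℝ)) ^ E₃) *
          ((N : ℝ) ^ η₀ * (Real.exp (2 * (r * Real.log N)) * (D₁ : ℝ) ^ 2)) := by ring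
      _ ≤ ((Real.log ((2 * N : ℕ) : ℝ)) ^ (2 * E₁) * (Real.log ((2 * N : ℕ) : ℝ)) ^ E₃) *
          ((2 * N : ℕ) : ℝ) ^ (3 * η₀ + 2 * r) :=
          mul_le_mul (mul_le_mul_of_nonneg_right hg' (by positivity)) hpw (by positivity)
            (by positivity)
      _ ≤ ((2 * N : ℕ) : ℝ) ^ (η / 2) * ((2 * N : ℕ) : ℝ) ^ (3 * η₀ + 2 * r) := by
          refine mul_le_mul_of_nonneg_right ?_ (Real.rpow_nonneg hT0.le _)
          rw [← pow_add]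
          exact hgY
      _ = ((2 * N : ℕ) : ℝ) ^ (η / 2 + (3 * η₀ + 2 * r)) := (Real.rpow_add hT0 _ _).symm
      _ ≤ ((2 * N : ℕ) : ℝ) ^ η := Real.rpow_le_rpow_of_exponent_le hT1 (by linarith)
      _ ≤ _ := Real.rpow_le_rpow hT0.le hX1 hη.le
  -- the roots
  have habs : ∀ i : Fin k, |((-(α i * (N + h i)) : ℤ) : ℝ)| ≤ X - (X : ℝ) ^ (1 / 2 : ℝ) := by
    intro i
    have h1 : |(-(α i * (N + h i)) : ℤ)| ≤ N + |h i| := by
      rw [abs_neg, abs_mul]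
      have h2 : |α i| = 1 := by rcases hα i with h3 | h3 <;> rw [h3] <;> norm_num
      rw [h2, one_mul]
      refine (abs_add_le _ _).trans ?_
      rw [Nat.abs_cast]
    have h2 : 2 * (h i).natAbs ≤ N := by
      have h3 : (h i).natAbs ≤ ∑ i, (h i).natAbs :=
        Finset.single_le_sum (f := fun i => (h i).natAbs) (fun _ _ => Nat.zero_le _)
          (Finset.mem_univ i)
      omega
    have h3 : 2 * |h i| ≤ N := by
      rw [Int.abs_eq_natAbs]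
      exact_mod_cast h2
    have h4 : 2 * |(-(α i * (N + h i)) : ℤ)| ≤ 3 * N := by linarith
    have h5 : 2 * |((-(α i * (N + h i)) : ℤ) : ℝ)| ≤ 3 * N := by
      rw [← Int.cast_abs]
      exact_mod_cast h4
    have h6 : (X : ℝ) ^ (1 / 2 : ℝ) ≤ X / 4 := by
      rw [← Real.sqrt_eq_rpow, Real.sqrt_le_iff]
      refine ⟨by positivity, ?_⟩
      nlinarith
    linarith
  have hne : -(α j * (N + h j)) ≠ -(α j' * (N + h j')) := by
    intro h1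
    have h2 := cross α h N j j' (hα j) (hα j')
    rw [h1, sub_self, zero_mul] at h2
    exact hcc.1 (some j) (some j') (by simpa using hjj') h2.symm
  have hCL : ∀ p : ℕ, p.Prime → ((2 * N : ℕ) : ℝ) ^ ε₁ < (p : ℝ) →
      (p : ℤ) ∣ -(α j * (N + h j)) - -(α j' * (N + h j')) → p ∈ CL (uB α) (wB h N) := by
    intro p hp _ hd
    refine mem_CL _ _ hcc.1 p hp (some j) (some j') (by simpa using hjj') ?_
    rw [← cross α h N j j' (hα j) (hα j')]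
    exact dvd_mul_of_dvd_left hd _
  have hRC : ∀ b : ℕ → ℝ, RCM (CL (uB α) (wB h N)) (((2 * N : ℕ) : ℝ) ^ ε₁) Z M b →
      RC (fun p => p ∈ CL (uB α) (wB h N)) (((2 * N : ℕ) : ℝ) ^ ε₁) Z (fun d => b d / M) := by
    intro b hb
    refine ⟨fun d => ?_, fun d hd => ?_⟩
    · rw [abs_div, abs_of_pos (by linarith : 0 < M), div_le_one (by linarith)]
      exact hb.bd d
    · exact hb.supp d (fun h0 => hd (by rw [h0, zero_div]))
  -- the correlation theorem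
  have hExa := hEXM.2.1 _ Unit {()}
    (fun _ => 1 / (Real.log ((2 * N : ℕ) : ℝ)) ^ (2 * E₁ + m₁ + E₃ + 5)) _ _ _ _
    (fun _ _ => hEx2)
  simp only [Finset.sum_singleton] at hExa
  have hmain := hR X Z (by have := hN16; rcases hX with rfl | rfl <;> omega) hZ _
    (fun p => p ∈ CL (uB α) (wB h N)) _ _ (((2 * N : ℕ) : ℝ) ^ ε₁) _ _ hy ?_ hExa hR0 hY0 ?_
    (-(α j * (N + h j))) (-(α j' * (N + h j'))) (habs j) (habs j') hne hCL _ _ (hRC b hb)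
    (hRC b' hb')
  rotate_left
  · rintro p ((h1 | h1) | h1)
    · have h2 : (p : ℝ) ≤ (DB (2 * N) B : ℝ) := by exact_mod_cast h1.trans hDDB
      linarith
    · have h2 : (p : ℝ) ≤ (DB (2 * N) B : ℝ) := by exact_mod_cast h1.2
      linarith
    · exact (hP p h1).2.2
  · rw [abs_mul, abs_of_pos ha0, div_mul_eq_mul_div, one_mul, div_le_one (by positivity)]
    exact hm0
  simp only [ds_div, hat_div] at hmain
  have hM0 : M ≠ 0 := by linarith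
  have hlE : (Real.log ((2 * N : ℕ) : ℝ)) ^ (2 * E₁ + m₁ + E₃ + 5) ≠ 0 := by positivity
  have key : ∀ n : ℤ, Wt X n * Ms α h N D v D₁ Z P Tr c j j' th th' b b' n =
      ((Real.log ((2 * N : ℕ) : ℝ)) ^ (2 * E₁ + m₁ + E₃ + 5) * M ^ 2) * (Wt X n *
        (1 / (Real.log ((2 * N : ℕ) : ℝ)) ^ (2 * E₁ + m₁ + E₃ + 5) *
          ((if ((WW D / 2 : ℕ) : ℤ) ∣ n - (v : ℤ) then 1 else 0) * Tr n *
            (FZ (uB α) (wB h N) P c n ^ 2 *
              (Ev th D₁ (uB α (some j) * n + wB h N (some j)) *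
                Ev th' D₁ (uB α (some j') * n + wB h N (some j'))))) *
          (ds b Z (n - -(α j * (N + h j))) / M * (ds b' Z (n - -(α j' * (N + h j'))) / M)))) := by
    intro n
    unfold Ms
    rw [ds_lf α h N j (hα j) n b Z, ds_lf α h N j' (hα j') n b' Z]
    unfold Lf
    field_simp
  have hZX : Z ≤ X := by
    have h1 : (X : ℝ) ^ (1 / 2 + ε₀ / 4) ≤ (X : ℝ) := by
      calc (X : ℝ) ^ (1 / 2 + ε₀ / 4) ≤ (X : ℝ) ^ (1 : ℝ) :=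
            Real.rpow_le_rpow_of_exponent_le hX1' (by linarith)
        _ = _ := Real.rpow_one _
    exact_mod_cast hZ.trans h1
  have hlX : 1 + Real.log X ≤ 2 * Real.log ((2 * N : ℕ) : ℝ) := by
    have h1 : Real.log X ≤ Real.log (2 * ((2 * N : ℕ) : ℝ)) := Real.log_le_log hX0 hX3
    rw [Real.log_mul (by norm_num) hT0.ne'] at h1
    have h2 := Real.log_two_lt_d9
    linarith
  have hSb : ∀ b : ℕ → ℝ, RCM (CL (uB α) (wB h N)) (((2 * N : ℕ) : ℝ) ^ ε₁) Z M b →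
      |∑ d ∈ Icc 1 Z, b d / (d : ℝ)| ≤ M * (2 * Real.log ((2 * N : ℕ) : ℝ)) := by
    intro b hb
    refine (sum_bd b M Z X (by linarith) hb.bd hZX).trans ?_
    exact mul_le_mul_of_nonneg_left hlX (by linarith)
  have hsumW : Summable (fun n : ℤ => Wt X n) := by
    have hone := hEXM.2.2.2.1 (fun _ => True) 1 0 le_rfl odd_one squarefree_one
      (fun _ _ _ => trivial)
    have h1 : ((1 : ℕ) : ℝ) ≤ (X : ℝ) ^ (1 - 1 / 2 : ℝ) := by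
      rw [Nat.cast_one]
      exact Real.one_le_rpow hX1' (by norm_num)
    have hsW := (hX₀ X (by have := hNX; rcases hX with rfl | rfl <;> omega) _ _ _ _ _ hone h1).1
    simpa using hsW
  have hbd : ∃ Y : ℝ, 0 ≤ Y ∧ ∀ n : ℤ, |((if ((WW D / 2 : ℕ) : ℤ) ∣ n - (v : ℤ) then 1 else 0) *
      Tr n) * (FZ (uB α) (wB h N) P c n ^ 2 *
        (Ev th D₁ (Lf α h N (some j) n) * Ev th' D₁ (Lf α h N (some j') n)))| ≤ Y :=
    ⟨_, (abs_nonneg _).trans (ex_bd hEx2 0), fun n => ex_bd hEx2 n⟩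
  obtain ⟨Y, hY, hYb⟩ := hbd
  constructor
  · refine Summable.of_norm_bounded (g := fun n => Y * ((∑ d ∈ Icc 1 Z, |b d|) *
      ∑ d ∈ Icc 1 Z, |b' d|) * Wt X n) (hsumW.mul_left _) (fun n => ?_)
    have h2 := ds_bd b Z (Lf α h N (some j) n)
    have h3 := ds_bd b' Z (Lf α h N (some j') n)
    have h4 : 0 ≤ Wt X n := (Real.exp_pos _).le
    have h5 : 0 ≤ ∑ d ∈ Icc 1 Z, |b d| := Finset.sum_nonneg fun _ _ => abs_nonneg _
    rw [Real.norm_eq_abs, abs_mul, abs_of_nonneg h4, mul_comm]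
    refine mul_le_mul_of_nonneg_right ?_ h4
    unfold Ms
    rw [abs_mul, abs_mul (ds _ _ _)]
    exact mul_le_mul (hYb n) (mul_le_mul h2 h3 (abs_nonneg _) h5)
      (mul_nonneg (abs_nonneg _) (abs_nonneg _)) hY
  · rw [tsum_congr key, tsum_mul_left]
    have hdiff := diff_bd (Real.log ((2 * N : ℕ) : ℝ)) M X ((WW D / 2 : ℕ) : ℝ) t m3
      (hat th D₁ * hat th' D₁ * Q1f (prP P) c) (∑ d ∈ Icc 1 Z, b d / (d : ℝ))
      (∑ d ∈ Icc 1 Z, b' d / (d : ℝ)) ((DB (2 * N) B : ℝ) + 1) (((Real.log N) ^ E₁) ^ 2) A B E₁ E₃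
      (by linarith) (hlM.trans hl) hM hX0.le hW1R ht hg' hm3 hDB1 hB (hSb b hb) (hSb b' hb')
    have herr := err_bd X (Real.log ((2 * N : ℕ) : ℝ)) M C η₁ A (2 * E₁ + m₁ + E₃ + 5) hX0 hl0
      (hgE.trans (Real.rpow_le_rpow hT0.le hX1 hη₁.le))
    have hfin : (X : ℝ) / (Real.log ((2 * N : ℕ) : ℝ)) ^ A ≤ X / (Real.log N) ^ A := by
      refine div_le_div_of_nonneg_left hX0.le (pow_pos (by linarith) _) ?_
      exact pow_le_pow_left₀ (by linarith) hl _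
    have hc0 : 0 ≤ (Real.log ((2 * N : ℕ) : ℝ)) ^ (2 * E₁ + m₁ + E₃ + 5) * M ^ 2 := by positivity
    have h1 := mul_le_mul_of_nonneg_left hmain hc0
    rw [← abs_of_nonneg hc0, ← abs_mul, abs_of_nonneg hc0] at h1
    have h2 : (X : ℝ) / (2 * (Real.log ((2 * N : ℕ) : ℝ)) ^ A) +
        X / (2 * (Real.log ((2 * N : ℕ) : ℝ)) ^ A) = X / (Real.log ((2 * N : ℕ) : ℝ)) ^ A := by
      field_simp
      ring
    refine le_trans ?_ hfin
    rw [← h2]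
    refine le_trans ?_ (add_le_add (h1.trans herr) hdiff)
    refine le_trans (le_of_eq ?_) (abs_add_le _ _)
    congr 1
    unfold Mm
    rw [mul_sub]
    have h3 : ∀ S S' : ℝ, (Real.log ((2 * N : ℕ) : ℝ)) ^ (2 * E₁ + m₁ + E₃ + 5) * M ^ 2 *
        (X * (1 / (Real.log ((2 * N : ℕ) : ℝ)) ^ (2 * E₁ + m₁ + E₃ + 5) *
          (1 / ((WW D / 2 : ℕ) : ℝ) * t * m3) * (S / M * (S' / M)))) =
        X * ((1 / ((WW D / 2 : ℕ) : ℝ) * t * m3) * (S * S')) := by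
      intro S S'
      field_simp
    rw [h3]
    ring

end Pool.Agent.W89.UBMAS
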