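import Pool.Agent.W894.MB.Defs

/-!
Part MB-CONST of project MB (helper894, MP_e811a4_lc).
-/

namespace Pool.Agent.W89.MBConst

open Set Pool.Agent.W894.MB

universe u v

theorem main1 : S_CONST.{u, v} := by
  intro K _ _ U hU T hT g
  obtain ⟨a, e, he, hea⟩ := hT
  have h1 : {x | e (g x) < x} ∈ U :=
    Filter.mem_of_superset (hU.tail a) (fun x hx => (hea (g x)).trans hx)
  obtain ⟨b, hb⟩ := hU.normal (fun x => e (g x)) h1
  obtain ⟨x0, hx0⟩ := U.nonempty_of_mem hb
  refine ⟨g x0, Filter.mem_of_superset hb fun x hx => ?_⟩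
  have hx' : e (g x) = b := hx
  have hx0' : e (g x0) = b := hx0
  exact he (hx'.trans hx0'.symm)

theorem main2 : S_SIGMA.{u} := by
  intro K _ _ U hU hN A hA
  classical
  have hS : Smaller (Option ℕ) K := by
    obtain ⟨a, e, he, hea⟩ := hN
    refine ⟨a, fun o => e ⟨o.elim 0 (fun n => n + 1)⟩, ?_, fun t => hea _⟩
    intro o o' h
    have h' := congrArg ULift.down (he h)
    cases o <;> cases o' <;> simp_all
  let g : K → Option ℕ := fun x => if h : ∃ n, x ∉ A n then some (Nat.find h) else none
  obtain ⟨t, ht⟩ := main1 K U hU (Option ℕ) hS g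
  cases t with
  | none =>
    refine Filter.mem_of_superset ht fun x hx => ?_
    have hx' : g x = none := hx
    refine Set.mem_iInter.2 fun n => ?_
    by_contra hn
    have : g x = some (Nat.find (⟨n, hn⟩ : ∃ n, x ∉ A n)) := dif_pos ⟨n, hn⟩
    rw [this] at hx'
    exact absurd hx' (by simp)
  | some n =>
    exfalso
    obtain ⟨x, hx, hxn⟩ := U.nonempty_of_mem (Filter.inter_mem ht (hA n))
    have hx' : g x = some n := hx
    by_cases h : ∃ n, x ∉ A n
    · have h2 : g x = some (Nat.find h) := dif_pos h
      rw [h2] at hx'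
      have h3 := Option.some.inj hx'
      have h4 := Nat.find_spec h
      rw [h3] at h4
      exact h4 hxn
    · have h2 : g x = none := dif_neg h
      rw [h2] at hx'
      exact absurd hx' (by simp)

end Pool.Agent.W89.MBConst
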